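import Mathlib

/-!
The kernel `min s u` is positive semidefinite.
-/

set_option autoImplicit false

namespace Pool.Agent.L7h94.AG

open MeasureTheory Filter Topology

theorem frm (pi : Measure ℝ) [IsProbabilityMeasure pi] (h0 : ∀ᵐ u ∂pi, 0 ≤ u) (f : ℝ → ℝ)
    (hf : Measurable f)
    (hi : Integrable (Function.uncurry fun s u : ℝ => f s * (min s u * f u)) (pi.prod pi))
    (hf1 : Integrable f pi) : 0 ≤ ∫ s, ∫ u, f s * (min s u * f u) ∂pi ∂pi := by
  rw [MeasureTheory.integral_integral hi]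
  have hi' : Integrable (fun z : ℝ × ℝ => f z.1 * (min z.1 z.2 * f z.2)) (pi.prod pi) := hi
  have hae : ∀ᵐ z ∂(pi.prod pi), 0 ≤ z.1 ∧ 0 ≤ z.2 := by
    have h1 : ∀ᵐ z ∂(pi.prod pi), 0 ≤ z.1 := Measure.quasiMeasurePreserving_fst.ae h0
    have h2 : ∀ᵐ z ∂(pi.prod pi), 0 ≤ z.2 := Measure.quasiMeasurePreserving_snd.ae h0
    filter_upwards [h1, h2] with z a b using ⟨a, b⟩
  have htend : Tendsto (fun T : ℕ => ∫ z, f z.1 * (min (min z.1 z.2) (T : ℝ) * f z.2) ∂(pi.prod pi))
      atTop (𝓝 (∫ z, f z.1 * (min z.1 z.2 * f z.2) ∂(pi.prod pi))) := by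
    apply tendsto_integral_of_dominated_convergence (fun z => ‖f z.1 * (min z.1 z.2 * f z.2)‖)
    · intro T
      apply Measurable.aestronglyMeasurable
      fun_prop
    · exact hi'.norm
    · intro T
      filter_upwards [hae] with z hz
      rw [norm_mul, norm_mul, norm_mul, norm_mul]
      have h1 : 0 ≤ min z.1 z.2 := le_min hz.1 hz.2
      have h2 : 0 ≤ min (min z.1 z.2) (T : ℝ) := le_min h1 (Nat.cast_nonneg T)
      rw [Real.norm_of_nonneg h1, Real.norm_of_nonneg h2]
      have h3 : min (min z.1 z.2) (T : ℝ) ≤ min z.1 z.2 := min_le_left _ _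
      gcongr
    · filter_upwards with z
      apply tendsto_const_nhds.congr'
      filter_upwards [eventually_ge_atTop ⌈min z.1 z.2⌉₊] with T hT
      have h4 : min z.1 z.2 ≤ (T : ℝ) := (Nat.le_ceil _).trans (by exact_mod_cast hT)
      have h5 : min (min z.1 z.2) (T : ℝ) = min z.1 z.2 := min_eq_left h4
      rw [h5]
  apply ge_of_tendsto' htend
  intro T
  -- the truncated kernel is an integral of products
  let g : ℝ → ℝ → ℝ := fun t s => Set.indicator (Set.Ioi t) f s
  have hker : ∀ z : ℝ × ℝ, 0 ≤ z.1 → 0 ≤ z.2 → f z.1 * (min (min z.1 z.2) (T : ℝ) * f z.2) =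
      ∫ t in Set.Ico (0 : ℝ) T, g t z.1 * g t z.2 := by
    intro z h1 h2
    have e : ∀ t ∈ Set.Ico (0 : ℝ) T, g t z.1 * g t z.2 =
        Set.indicator (Set.Iio (min z.1 z.2)) (fun _ => f z.1 * f z.2) t := by
      intro t _
      by_cases ha : t < z.1
      · by_cases hb : t < z.2
        · have : t ∈ Set.Iio (min z.1 z.2) := lt_min ha hb
          simp [g, Set.indicator, ha, hb]
        · simp [g, Set.indicator, ha, hb]
      · simp [g, Set.indicator, ha]
    rw [setIntegral_congr_fun measurableSet_Ico e, setIntegral_indicator measurableSet_Iio,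
      setIntegral_const]
    have hset : Set.Ico (0 : ℝ) T ∩ Set.Iio (min z.1 z.2) = Set.Ico 0 (min (min z.1 z.2) (T : ℝ)) := by
      ext t
      simp only [Set.mem_inter_iff, Set.mem_Ico, Set.mem_Iio, lt_min_iff]
      tauto
    rw [hset, Real.volume_real_Ico_of_le (le_min (le_min h1 h2) (Nat.cast_nonneg T)), smul_eq_mul]
    ring
  have hInt1 : ∫ z, f z.1 * (min (min z.1 z.2) (T : ℝ) * f z.2) ∂(pi.prod pi) =
      ∫ z, (∫ t in Set.Ico (0 : ℝ) T, g t z.1 * g t z.2) ∂(pi.prod pi) := by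
    apply integral_congr_ae
    filter_upwards [hae] with z hz
    exact hker z hz.1 hz.2
  rw [hInt1]
  have hgm : Measurable (fun q : (ℝ × ℝ) × ℝ => g q.2 q.1.1 * g q.2 q.1.2) := by
    have h1 : Measurable (fun q : (ℝ × ℝ) × ℝ => g q.2 q.1.1) := by
      have : (fun q : (ℝ × ℝ) × ℝ => g q.2 q.1.1) =
          Set.indicator {q : (ℝ × ℝ) × ℝ | q.2 < q.1.1} (fun q => f q.1.1) := by
        funext q
        simp [g, Set.indicator]
      rw [this]
      apply Measurable.indicator (by fun_prop)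
      exact measurableSet_lt (by fun_prop) (by fun_prop)
    have h2 : Measurable (fun q : (ℝ × ℝ) × ℝ => g q.2 q.1.2) := by
      have : (fun q : (ℝ × ℝ) × ℝ => g q.2 q.1.2) =
          Set.indicator {q : (ℝ × ℝ) × ℝ | q.2 < q.1.2} (fun q => f q.1.2) := by
        funext q
        simp [g, Set.indicator]
      rw [this]
      apply Measurable.indicator (by fun_prop)
      exact measurableSet_lt (by fun_prop) (by fun_prop)
    exact h1.mul h2
  have hprod : Integrable (fun z : ℝ × ℝ => f z.1 * f z.2) (pi.prod pi) := hf1.mul_prod hf1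
  have hint : Integrable (Function.uncurry fun (z : ℝ × ℝ) (t : ℝ) => g t z.1 * g t z.2)
      ((pi.prod pi).prod (volume.restrict (Set.Ico (0 : ℝ) T))) := by
    have hb : Integrable (fun q : (ℝ × ℝ) × ℝ => (f q.1.1 * f q.1.2) * (1 : ℝ))
        ((pi.prod pi).prod (volume.restrict (Set.Ico (0 : ℝ) T))) :=
      hprod.mul_prod (integrable_const (1 : ℝ))
    refine hb.mono hgm.aestronglyMeasurable ?_
    filter_upwards with q
    rw [mul_one, norm_mul]
    change ‖g q.2 q.1.1 * g q.2 q.1.2‖ ≤ _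
    rw [norm_mul]
    exact mul_le_mul (norm_indicator_le_norm_self _ _) (norm_indicator_le_norm_self _ _)
      (norm_nonneg _) (norm_nonneg _)
  rw [MeasureTheory.integral_integral_swap hint]
  apply integral_nonneg
  intro t
  change 0 ≤ ∫ z, g t z.1 * g t z.2 ∂(pi.prod pi)
  rw [integral_prod_mul (g t) (g t)]
  exact mul_self_nonneg _

end Pool.Agent.L7h94.AG
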